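import Pool.Agent.W2helper57.LD.Stm

set_option autoImplicit false

open Filter Asymptotics Pool.Agent.N602.PC

namespace Pool.Agent.W2helper57.LD

theorem sum_prod_w {ι : Type} [Fintype ι] [DecidableEq ι] (w : ι → Bool → ℝ)
    (hw : ∀ i, w i true + w i false = 1) : ∑ ω : ι → Bool, ∏ i, w i (ω i) = 1 := by
  have h := (Finset.prod_univ_sum (fun _ : ι => (Finset.univ : Finset Bool)) (fun i b => w i b)).symm
  rw [Fintype.piFinset_univ] at h
  rw [h]
  refine Finset.prod_eq_one fun i _ => ?_
  rw [Fintype.sum_bool]
  exact hw i

theorem eqew : S_EQEW := by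
  refine ⟨fun n F => ?_, fun n p c => ?_⟩
  · unfold EQ Ew
    rw [Finset.sum_div]
    refine Finset.sum_congr rfl fun ω _ => ?_
    rw [Finset.prod_const, Finset.card_univ, one_div, inv_pow, div_eq_inv_mul]
  · unfold EV Ew
    rw [← Finset.sum_mul, sum_prod_w, one_mul]
    intro i
    simp [wb]

theorem cond : S_COND := by
  intro n p r F
  have key : ∀ G : (Fin n → Bool) → ℝ, EV p G =
      p * EV p (fun σ => G (Function.update σ r true)) +
        (1 - p) * EV p (fun σ => G (Function.update σ r false)) := by
    intro G
    set W : (Fin n → Bool) → ℝ := fun σ => ∏ i ∈ Finset.univ.erase r, wb p (σ i) with hW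
    have hw : ∀ σ : Fin n → Bool, ∏ i, wb p (σ i) = wb p (σ r) * W σ := fun σ =>
      (Finset.mul_prod_erase Finset.univ (fun i => wb p (σ i)) (Finset.mem_univ r)).symm
    have hWu : ∀ (σ : Fin n → Bool) (b : Bool), W (Function.update σ r b) = W σ := by
      intro σ b
      refine Finset.prod_congr rfl fun i hi => ?_
      rw [Function.update_of_ne (Finset.ne_of_mem_erase hi)]
    -- sum over the bit of `r` and the rest
    have hsplit : ∀ K : (Fin n → Bool) → ℝ, ∑ σ : Fin n → Bool, K σ =
        (∑ σ : Fin n → Bool, (K (Function.update σ r true) + K (Function.update σ r false))) / 2 := by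
      intro K
      have h1 : ∑ σ : Fin n → Bool, K (Function.update σ r (!σ r)) = ∑ σ : Fin n → Bool, K σ := by
        refine Fintype.sum_bijective (fun σ : Fin n → Bool => Function.update σ r (!σ r)) ?_ _ _
          (fun σ => rfl)
        refine Function.Involutive.bijective fun σ => ?_
        funext i
        by_cases hi : i = r
        · subst hi
          simp
        · simp [Function.update_of_ne hi]
      have h2 : ∀ σ : Fin n → Bool, K (Function.update σ r true) + K (Function.update σ r false) =
          K σ + K (Function.update σ r (!σ r)) := by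
        intro σ
        cases hσ : σ r
        · rw [show Function.update σ r false = σ from by rw [← hσ]; exact Function.update_eq_self r σ]
          simp [add_comm]
        · rw [show Function.update σ r true = σ from by rw [← hσ]; exact Function.update_eq_self r σ]
          simp
      rw [Finset.sum_congr rfl fun σ _ => h2 σ, Finset.sum_add_distrib, h1]
      ring
    unfold EV Ew
    rw [hsplit, hsplit (fun σ => (∏ i, wb p (σ i)) * G (Function.update σ r true)),
      hsplit (fun σ => (∏ i, wb p (σ i)) * G (Function.update σ r false))]
    simp only [hw, hWu, Function.update_self, Function.update_idem]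
    rw [mul_div_assoc', mul_div_assoc', ← add_div, Finset.mul_sum, Finset.mul_sum,
      ← Finset.sum_add_distrib]
    congr 1
    refine Finset.sum_congr rfl fun σ _ => ?_
    simp only [wb, if_true, Bool.false_eq_true, if_false]
    ring
  exact key _

end Pool.Agent.W2helper57.LD
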