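import Pool.Agent.W2helper57.LD.Stm

/-! # Project LD: the final step -/

set_option autoImplicit false

open Filter Asymptotics Pool.Agent.N602.PC

namespace Pool.Agent.W2helper57.LD

/-- all the conclusions for one `n` -/
structure Out (n D : ℕ) (k κ : ℝ) (F : MvPolynomial (Edge n) ℝ) : Prop where
  deg : F.totalDegree ≤ D
  vp : varP k F ≤ 2 * n ^ 2 * κ + 2 * k
  vq : varQ F ≤ n ^ 2 * κ
  mn : k - 2 * (n * Real.sqrt κ) ≤ |meanP k F - meanQ F|

theorem tendsto_L : Tendsto (fun n : ℕ => Real.sqrt (Real.log n)) atTop atTop :=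
  Real.tendsto_sqrt_atTop.comp (Real.tendsto_log_atTop.comp tendsto_natCast_atTop_atTop)

theorem vN_le {a n : ℕ} (h : 1 ≤ Real.sqrt (Real.log n)) :
    ((vN a n : ℝ) + 1) ≤ (a + 3) * Real.sqrt (Real.log n) := by
  unfold vN
  have h1 := (Nat.ceil_lt_add_one (a := (a : ℝ) * Real.sqrt (Real.log n)) (by positivity)).le
  push_cast
  nlinarith

theorem degree_le {a n : ℕ} (h : 1 ≤ Real.sqrt (Real.log n)) :
    6 * (vN a n + 1) ^ 2 ≤ ⌈6 * ((a : ℝ) + 3) ^ 2 * Real.log n⌉₊ := by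
  have h1 := vN_le (a := a) h
  have h0 : 0 ≤ Real.log n := by
    by_contra hc
    rw [Real.sqrt_eq_zero_of_nonpos (not_le.mp hc).le] at h
    linarith
  have h2 : ((vN a n : ℝ) + 1) ^ 2 ≤ ((a + 3) * Real.sqrt (Real.log n)) ^ 2 :=
    pow_le_pow_left₀ (by positivity) h1 2
  rw [mul_pow, Real.sq_sqrt h0] at h2
  have h3 : ((6 * (vN a n + 1) ^ 2 : ℕ) : ℝ) ≤ 6 * ((a : ℝ) + 3) ^ 2 * Real.log n := by
    push_cast
    nlinarith
  exact_mod_cast h3.trans (Nat.le_ceil _)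

theorem NN_mul {a n : ℕ} (h : 1 ≤ n) : 6 * ((vN a n + 1) * NN a n) + 1 ≤ n := by
  unfold NN
  have := Nat.mul_div_le (n - 1) (6 * (vN a n + 1))
  have e : 6 * ((vN a n + 1) * ((n - 1) / (6 * (vN a n + 1)))) =
    6 * (vN a n + 1) * ((n - 1) / (6 * (vN a n + 1))) := by ring
  omega

theorem NN_pos (a : ℕ) : ∀ᶠ n : ℕ in atTop, 0 < NN a n := by
  have h1 : (fun n : ℕ => (a + 3 : ℝ) * Real.sqrt (Real.log n)) =o[atTop] fun n : ℕ => (n : ℝ) := by
    have h2 : (fun x : ℝ => Real.log x ^ ((1 : ℝ) / 2)) =o[atTop] fun x : ℝ => x ^ (1 : ℝ) :=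
      isLittleO_log_rpow_rpow_atTop _ one_pos
    have h3 := h2.comp_tendsto tendsto_natCast_atTop_atTop
    refine (IsLittleO.const_mul_left (c := (a + 3 : ℝ)) ?_)
    refine h3.congr (fun n => ?_) (fun n => ?_)
    · simp only [Function.comp]
      rw [Real.sqrt_eq_rpow]
    · simp only [Function.comp]
      rw [Real.rpow_one]
  filter_upwards [h1.bound (show (0 : ℝ) < 1 / 12 by norm_num), tendsto_L.eventually_ge_atTop 1,
    eventually_ge_atTop 2] with n hn hL h2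
  unfold NN
  refine Nat.div_pos ?_ (by positivity)
  have h3 := vN_le (a := a) hL
  rw [Real.norm_of_nonneg (by positivity), Real.norm_of_nonneg (by positivity)] at hn
  have h4 : ((6 * (vN a n + 1) : ℕ) : ℝ) ≤ ((n - 1 : ℕ) : ℝ) := by
    rw [Nat.cast_sub (by omega)]
    push_cast
    have h5 : (2 : ℝ) ≤ n := by exact_mod_cast h2
    linarith
  exact_mod_cast h4

theorem key (hE : S_EST) (hS : S_SEP) (hA : S_ASYM) (B : ℝ) : ∃ C : ℝ, ∀ k : ℕ → ℝ,
    (∀ᶠ n : ℕ in atTop, Real.sqrt n * Real.exp (-B * Real.sqrt (Real.log n)) ≤ k n ∧ k n ≤ n) →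
    (∃ f : ∀ n : ℕ, MvPolynomial (Edge n) ℝ,
      (∀ n : ℕ, (f n).totalDegree ≤ ⌈C * Real.log n⌉₊) ∧
      (∀ᶠ n in atTop, meanP (k n) (f n) ≠ meanQ (f n)) ∧
      (fun n => Real.sqrt (max (varP (k n) (f n)) (varQ (f n)))) =o[atTop]
        (fun n => |meanP (k n) (f n) - meanQ (f n)|)) ∧
    (fun n : ℕ => MMSE n (k n) ⌈C * Real.log n⌉₊) =o[atTop] (fun n : ℕ => (1 : ℝ) / n) := by
  obtain ⟨a, ha⟩ := hA B
  refine ⟨6 * ((a : ℝ) + 3) ^ 2, fun k hk => ?_⟩
  obtain ⟨t1, t2, t3⟩ := ha k hk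
  set κ : ℕ → ℝ := fun n => kap (vN a n) (NN a n) (k n / n) with hκ
  set D : ℕ → ℕ := fun n => ⌈6 * ((a : ℝ) + 3) ^ 2 * Real.log n⌉₊ with hD
  have hgood : ∀ᶠ n : ℕ in atTop, 0 < k n ∧ 0 ≤ κ n ∧ 0 ≤ MMSE n (k n) (D n) ∧
      MMSE n (k n) (D n) ≤ κ n ∧ ∃ F, Out n (D n) (k n) (κ n) F := by
    filter_upwards [hk, NN_pos a, tendsto_L.eventually_ge_atTop 1, eventually_ge_atTop 1] with
      n hkn hN hL h1
    have hk0 : 0 < k n := by
      refine lt_of_lt_of_le ?_ hkn.1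
      have : (0 : ℝ) < n := by exact_mod_cast h1
      positivity
    have hest : ∀ r : Fin n, ∃ f : MvPolynomial (Edge n) ℝ, f.totalDegree ≤ D n ∧
        EP (k n) (fun S Y => (ev f Y - if r ∈ S then 1 else 0) ^ 2) ≤ κ n ∧
        EQ (fun Y => ev f Y ^ 2) ≤ κ n := by
      intro r
      obtain ⟨f, hf1, hf2, hf3⟩ := hE n (vN a n) (NN a n) (k n) (NN_mul h1) hN hk0 hkn.2 r
      exact ⟨f, hf1.trans (degree_le hL), hf2, hf3⟩
    have hκ0 : 0 ≤ κ n := by
      obtain ⟨f, -, -, hf3⟩ := hest ⟨0, h1⟩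
      exact (EQ_nonneg fun Y => sq_nonneg _).trans hf3
    obtain ⟨⟨m1, m2⟩, F, f1, f2, f3, f4⟩ := hS n (D n) (k n) (κ n) h1 hk0 hkn.2 hκ0 hest
    exact ⟨hk0, hκ0, m1, m2, F, f1, f2, f3, f4⟩
  refine ⟨?_, ?_⟩
  · classical
    let f : ∀ n : ℕ, MvPolynomial (Edge n) ℝ := fun n =>
      if h : ∃ F, Out n (D n) (k n) (κ n) F then h.choose else 0
    have hf : ∀ n, (∃ F, Out n (D n) (k n) (κ n) F) → Out n (D n) (k n) (κ n) (f n) := by
      intro n h
      have : f n = h.choose := dif_pos h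
      rw [this]
      exact h.choose_spec
    have ht : ∀ c : ℝ, 0 < c → ∀ᶠ n : ℕ in atTop, (n / k n) ^ 2 * κ n ≤ c := fun c hc =>
      (t2.eventually (ge_mem_nhds hc))
    have hdiff : ∀ᶠ n : ℕ in atTop, k n / 2 ≤ |meanP (k n) (f n) - meanQ (f n)| := by
      filter_upwards [hgood, ht (1 / 16) (by norm_num)] with n hn hn2
      obtain ⟨hk0, hκ0, -, -, hF⟩ := hn
      have := (hf n hF).mn
      have h3 : (n * Real.sqrt (κ n)) ^ 2 ≤ (k n / 4) ^ 2 := by
        rw [mul_pow, Real.sq_sqrt hκ0]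
        rw [div_pow] at hn2
        have h4 : (n : ℝ) ^ 2 / k n ^ 2 * κ n * k n ^ 2 = (n : ℝ) ^ 2 * κ n := by
          field_simp
        nlinarith [sq_nonneg (k n), mul_le_mul_of_nonneg_right hn2 (sq_nonneg (k n))]
      have h5 := abs_le_of_sq_le_sq h3 (by positivity)
      have h6 : n * Real.sqrt (κ n) ≤ k n / 4 := (le_abs_self _).trans h5
      linarith
    refine ⟨f, fun n => ?_, ?_, ?_⟩
    · by_cases h : ∃ F, Out n (D n) (k n) (κ n) F
      · exact (hf n h).deg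
      · have : f n = 0 := dif_neg h
        rw [this]
        simp
    · filter_upwards [hdiff, hgood] with n hn hn2 he
      rw [he, sub_self, abs_zero] at hn
      linarith [hn2.1]
    · rw [isLittleO_iff]
      intro c hc
      filter_upwards [hdiff, hgood, ht (c ^ 2 / 16) (by positivity),
        t3.eventually_ge_atTop (16 / c ^ 2)] with n h1 h2 h3 h4
      obtain ⟨hk0, hκ0, -, -, hF⟩ := h2
      have hO := hf n hF
      rw [Real.norm_of_nonneg (Real.sqrt_nonneg _), Real.norm_of_nonneg (abs_nonneg _)]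
      refine le_trans ?_ (mul_le_mul_of_nonneg_left h1 hc.le)
      rw [show c * (k n / 2) = Real.sqrt ((c * (k n / 2)) ^ 2) from
        (Real.sqrt_sq (by positivity)).symm]
      refine Real.sqrt_le_sqrt ?_
      have h5 : (n : ℝ) ^ 2 * κ n ≤ c ^ 2 / 16 * k n ^ 2 := by
        rw [div_pow] at h3
        have h6 : (n : ℝ) ^ 2 / k n ^ 2 * κ n * k n ^ 2 = (n : ℝ) ^ 2 * κ n := by
          field_simp
        rw [← h6]
        exact mul_le_mul_of_nonneg_right h3 (sq_nonneg _)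
      have h7 : 2 * k n ≤ c ^ 2 / 8 * k n ^ 2 := by
        have h8 : 16 ≤ c ^ 2 * k n := by
          rw [div_le_iff₀ (by positivity)] at h4
          linarith
        nlinarith
      refine max_le (hO.vp.trans ?_) (hO.vq.trans ?_)
      · nlinarith
      · nlinarith [sq_nonneg (c * k n)]
  · rw [isLittleO_iff]
    intro c hc
    filter_upwards [hgood, t1.eventually (ge_mem_nhds hc), eventually_ge_atTop 1] with n h1 h2 h3
    obtain ⟨-, -, m1, m2, -⟩ := h1
    have hn : (0 : ℝ) < n := by exact_mod_cast h3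
    rw [Real.norm_of_nonneg m1, Real.norm_of_nonneg (by positivity)]
    refine m2.trans ?_
    rw [mul_one_div, le_div_iff₀ hn]
    linarith

end Pool.Agent.W2helper57.LD
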