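import Pool.Agent.W2helper57.LD.Asm
import Pool.Agent.W2helper57.LD.EQEW

set_option autoImplicit false

open Filter Asymptotics Pool.Agent.N602.PC

namespace Pool.Agent.W2helper57.LD

theorem card_prs (v : ℕ) : (prs v).card = v.choose 2 := by
  have h1 : (prs v).card = ∑ j : Fin v, (j : ℕ) := by
    unfold prs
    rw [Finset.card_filter, Fintype.sum_prod_type_right]
    refine Finset.sum_congr rfl fun j _ => ?_
    rw [← Finset.card_filter]
    have : (Finset.univ.filter fun x : Fin v => x < j) = Finset.Iio j := by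
      ext x
      simp
    rw [this, Fin.card_Iio]
  rw [h1, Fin.sum_univ_eq_sum_range (fun i => i) v, Finset.sum_range_id, Nat.choose_two_right]

theorem Ew_single {ι : Type} [Fintype ι] [DecidableEq ι] (w : ι → Bool → ℝ)
    (hw : ∀ i, w i true + w i false = 1) (x : ι) (c : Bool → ℝ) :
    Ew w (fun ω => c (ω x)) = w x true * c true + w x false * c false := by
  unfold Ew
  have h1 : ∀ ω : ι → Bool, (∏ i, w i (ω i)) * c (ω x) =
      ∏ i, (w i (ω i) * if i = x then c (ω i) else 1) := by
    intro ω
    rw [Finset.prod_mul_distrib]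
    congr 1
    rw [Finset.prod_ite_eq' Finset.univ x (fun i => c (ω i))]
    simp
  rw [Finset.sum_congr rfl fun ω _ => h1 ω]
  have h := (Finset.prod_univ_sum (fun _ : ι => (Finset.univ : Finset Bool))
    (fun i b => w i b * if i = x then c b else 1)).symm
  rw [Fintype.piFinset_univ] at h
  rw [h, ← Finset.mul_prod_erase Finset.univ _ (Finset.mem_univ x)]
  rw [Finset.prod_eq_one, mul_one, Fintype.sum_bool]
  · simp
  · intro i hi
    rw [Fintype.sum_bool]
    simp [Finset.ne_of_mem_erase hi, hw i]

theorem EV_prod_iv (hI : S_IND) {n m : ℕ} (p : ℝ) (x : Fin m → Fin n)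
    (hx : Function.Injective x) : EV p (fun σ => ∏ i : Fin m, iv (σ (x i))) = p ^ m := by
  unfold EV
  have hw : ∀ _i : Fin n, wb p true + wb p false = 1 := fun _ => by simp [wb]
  rw [hI (fun _ : Fin n => wb p) hw (Finset.univ : Finset (Fin m)) (fun i => {x i})
    (fun i _ j _ hij => by simpa using fun h => hij (hx h)) (fun i σ => iv (σ (x i)))
    (fun i _ ω ω' h => by simp only [h (x i) (by simp)])]
  rw [Finset.prod_congr rfl (g := fun _ => p), Finset.prod_const, Finset.card_univ,
    Fintype.card_fin]
  intro i _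
  have h1 := Ew_single (fun _ : Fin n => wb p) hw (x i) iv
  rw [h1]
  simp [wb, iv]

theorem iv_cases (b : Bool) : iv b = 0 ∨ iv b = 1 := by cases b <;> simp [iv]

theorem mom1 (hI : S_IND) (hE : S_EDGE1) : S_MOM1 := by
  intro n v N p r u hu s
  have key : ∀ (σ : Fin n → Bool) (g : Fin (v + 1) → Fin N),
      EQ (fun Z => Fg r u g (pl (Function.update σ r s) Z)) =
        (iv s * 2 ^ (v.choose 2)) * ∏ i : Fin (v + 1), iv (σ (u i (g i))) := by
    intro σ g
    rw [hE r u hu]
    have hne : ∀ i m, Function.update σ r s (u i m) = σ (u i m) := fun i m =>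
      Function.update_of_ne (hu.ne i m) _ _
    simp only [hne, Function.update_self]
    rw [Fin.prod_univ_succ]
    by_cases hall : ∀ j : Fin v, iv (σ (u j.succ (g j.succ))) = 1
    · simp only [hall, mul_one]
      rw [Finset.prod_const, Finset.prod_const, Finset.prod_const_one, card_prs, mul_one]
      rcases iv_cases (σ (u 0 (g 0))) with h | h
      · rw [h]; ring
      · rw [h, one_pow]; norm_num
    · obtain ⟨j, hj⟩ := not_forall.mp hall
      have h0 : iv (σ (u j.succ (g j.succ))) = 0 := by
        rcases iv_cases (σ (u j.succ (g j.succ))) with h | h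
        · exact h
        · exact absurd h hj
      rw [Finset.prod_eq_zero (Finset.mem_univ j) (by rw [h0, mul_zero]),
        Finset.prod_eq_zero (Finset.mem_univ j) h0]
      ring
  unfold EXs
  have e1 : ∀ σ : Fin n → Bool, EQ (fun Z => H r u (pl (Function.update σ r s) Z)) =
      ∑ g : Fin (v + 1) → Fin N,
        (iv s * 2 ^ (v.choose 2)) * ∏ i : Fin (v + 1), iv (σ (u i (g i))) := by
    intro σ
    unfold H
    rw [EQ_sum]
    exact Finset.sum_congr rfl fun g _ => key σ g
  simp only [e1]
  rw [EV_sum]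
  have e2 : ∀ g : Fin (v + 1) → Fin N, EV p (fun σ : Fin n → Bool =>
      (iv s * 2 ^ (v.choose 2)) * ∏ i : Fin (v + 1), iv (σ (u i (g i)))) =
      (iv s * 2 ^ (v.choose 2)) * p ^ (v + 1) := by
    intro g
    rw [EV_const_mul, EV_prod_iv hI p (fun i => u i (g i))]
    intro i j hij
    exact (hu.inj _ _ _ _ hij).1
  rw [Finset.sum_congr rfl fun g _ => e2 g, Finset.sum_const, Finset.card_univ, Fintype.card_fun,
    Fintype.card_fin, Fintype.card_fin, nsmul_eq_mul, mul_pow]
  push_cast
  ring

end Pool.Agent.W2helper57.LD
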