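import Pool.Agent.W2helper57.LD.Stm

/-! # Project LD: assembly -/

set_option autoImplicit false

open Filter Asymptotics Pool.Agent.N602.PC

namespace Pool.Agent.W2helper57.LD

/-! ### linearity and monotonicity -/

theorem Ew_const_mul {ι : Type} [Fintype ι] [DecidableEq ι] (w : ι → Bool → ℝ) (c : ℝ)
    (G : (ι → Bool) → ℝ) : Ew w (fun ω => c * G ω) = c * Ew w G := by
  unfold Ew
  rw [Finset.mul_sum]
  exact Finset.sum_congr rfl fun ω _ => by ring

theorem Ew_add {ι : Type} [Fintype ι] [DecidableEq ι] (w : ι → Bool → ℝ)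
    (F G : (ι → Bool) → ℝ) : Ew w (fun ω => F ω + G ω) = Ew w F + Ew w G := by
  unfold Ew
  rw [← Finset.sum_add_distrib]
  exact Finset.sum_congr rfl fun ω _ => by ring

theorem Ew_sum {ι κ : Type} [Fintype ι] [DecidableEq ι] (w : ι → Bool → ℝ) (s : Finset κ)
    (F : κ → (ι → Bool) → ℝ) : Ew w (fun ω => ∑ i ∈ s, F i ω) = ∑ i ∈ s, Ew w (F i) := by
  unfold Ew
  rw [Finset.sum_comm]
  exact Finset.sum_congr rfl fun ω _ => by rw [Finset.mul_sum]

theorem Ew_mono {ι : Type} [Fintype ι] [DecidableEq ι] (w : ι → Bool → ℝ)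
    (hw : ∀ i b, 0 ≤ w i b) {F G : (ι → Bool) → ℝ} (h : ∀ ω, F ω ≤ G ω) : Ew w F ≤ Ew w G := by
  unfold Ew
  exact Finset.sum_le_sum fun ω _ =>
    mul_le_mul_of_nonneg_left (h ω) (Finset.prod_nonneg fun i _ => hw i _)

theorem wb_nonneg {p : ℝ} (h0 : 0 ≤ p) (h1 : p ≤ 1) (b : Bool) : 0 ≤ wb p b := by
  unfold wb
  split <;> linarith

theorem EV_mono {n : ℕ} {p : ℝ} (h0 : 0 ≤ p) (h1 : p ≤ 1) {F G : (Fin n → Bool) → ℝ}
    (h : ∀ σ, F σ ≤ G σ) : EV p F ≤ EV p G :=
  Ew_mono _ (fun _ b => wb_nonneg h0 h1 b) h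

theorem EV_sum {n : ℕ} {κ : Type} (p : ℝ) (s : Finset κ) (F : κ → (Fin n → Bool) → ℝ) :
    EV p (fun σ => ∑ i ∈ s, F i σ) = ∑ i ∈ s, EV p (F i) := Ew_sum _ s F

theorem EV_const_mul {n : ℕ} (p c : ℝ) (F : (Fin n → Bool) → ℝ) :
    EV p (fun σ => c * F σ) = c * EV p F := Ew_const_mul _ c F

/-! ### second moment -/

theorem iv_nonneg (b : Bool) : 0 ≤ iv b := by unfold iv; split <;> norm_num

theorem th_nonneg (v : ℕ) : 0 ≤ th v := by unfold th; positivity

theorem mom2 (h1 : S_EDGE2) (h2 : S_BD) (h3 : S_EVP) (h4 : S_SUMG) : S_MOM2 := by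
  intro n v N p r u hu hp0 hp1 s
  set B : (Fin n → Bool) → (Fin (v + 1) → Fin N) → (Fin (v + 1) → Fin N) → ℝ := fun σ g g' =>
    if g 0 = g' 0 then ∏ j : Fin v, lf u (Function.update σ r s) g g' j else
        iv (Function.update σ r s r) * (iv (Function.update σ r s (u 0 (g 0))) *
          iv (Function.update σ r s (u 0 (g' 0)))) *
          ∏ j : Fin v, (iv (Function.update σ r s (u j.succ (g j.succ))) *
            iv (Function.update σ r s (u j.succ (g' j.succ)))) with hB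
  have e1 : ∀ σ : Fin n → Bool,
      EQ (fun Z => H r u (pl (Function.update σ r s) Z) ^ 2) ≤
        4 ^ (v.choose 2) * ∑ g, ∑ g', B σ g g' := by
    intro σ
    have : (fun Z : Input n => H r u (pl (Function.update σ r s) Z) ^ 2) = fun Z =>
        ∑ g, ∑ g', Fg r u g (pl (Function.update σ r s) Z) *
          Fg r u g' (pl (Function.update σ r s) Z) := by
      funext Z
      rw [sq, H, Finset.sum_mul_sum]
    rw [this, EQ_sum, Finset.mul_sum]
    refine Finset.sum_le_sum fun g _ => ?_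
    rw [EQ_sum, Finset.mul_sum]
    refine Finset.sum_le_sum fun g' _ => ?_
    rw [h1 r u hu]
    exact h2 r u (Function.update σ r s) g g'
  unfold EXs
  refine (EV_mono hp0 hp1 e1).trans ?_
  rw [EV_const_mul]
  refine mul_le_mul_of_nonneg_left ?_ (by positivity)
  rw [EV_sum]
  simp only [EV_sum]
  have e2 : ∀ g g' : Fin (v + 1) → Fin N, EV p (fun σ => B σ g g') =
      if g 0 = g' 0 then
        p * (∏ j : Fin v, if g j.succ = g' j.succ then p + (1 - p) * th v else p ^ 2) +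
        (1 - p) * (∏ j : Fin v, if g j.succ = g' j.succ then p + (1 - p) * th v else 0)
      else iv s * p ^ 2 * ∏ j : Fin v, if g j.succ = g' j.succ then p else p ^ 2 :=
    fun g g' => h3 p r u hu s g g'
  simp only [e2]
  exact h4 v N p (th v) (iv s) hp0 hp1 (th_nonneg v) (iv_nonneg s)

/-! ### the estimator of one vertex -/

theorem est (hC : S_COND) (hL : S_LINK) (hA : S_AMP) (h1 : S_MOM1) (h2 : S_MOM2) (hR : S_RATIO)
    (hP : S_POLY) (hB : S_BLK) : S_EST := by
  intro n v N k hn hN hk0 hkn r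
  obtain ⟨U, hU⟩ := hB n v N hn r
  have hn0 : (0 : ℝ) < n := lt_of_lt_of_le hk0 hkn
  set p : ℝ := k / n with hp
  have hp0 : 0 < p := div_pos hk0 hn0
  have hp1 : p ≤ 1 := (div_le_one hn0).mpr hkn
  have hN' : (0 : ℝ) < N := by exact_mod_cast hN
  set M : ℝ := (N * p) ^ (v + 1) * 2 ^ (v.choose 2) with hM
  have hM0 : 0 < M := by positivity
  obtain ⟨f, hf, hfe⟩ := hP M r U hU
  obtain ⟨r1, r2, r3⟩ := hR v N p hp0 hp1 hN
  have ivt : iv true = 1 := by simp [iv]
  have ivf : iv false = 0 := by simp [iv]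
  have q1 : EXs p r true (fun _ Y => (qf M r U Y - 1) ^ 2) ≤ (1 + dlt v N p ^ 2) ^ 3 - 1 := by
    refine (hA p M r U hU hp0.le hp1 hM0 true).1 _ (fun j l => ?_) (fun j l => ?_)
    · rw [h1 p r _ (hU.good j l) true, ivt, one_mul]
    · refine (h2 p r _ (hU.good j l) hp0.le hp1 true).trans ?_
      rw [ivt]
      exact r1
  have q0 : EXs p r false (fun _ Y => qf M r U Y ^ 2) ≤ ((1 + eta v N p) ^ 2 - 1) ^ 3 := by
    refine (hA p M r U hU hp0.le hp1 hM0 false).2 _ (fun j l => ?_) (fun j l => ?_)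
    · rw [h1 p r _ (hU.good j l) false, ivf, zero_mul]
    · refine (h2 p r _ (hU.good j l) hp0.le hp1 false).trans ?_
      rw [ivf]
      exact r2
  have qn : EXs 0 r false (fun _ Y => qf M r U Y ^ 2) ≤ ((1 + eta v N p) ^ 2 - 1) ^ 3 := by
    refine (hA 0 M r U hU le_rfl zero_le_one hM0 false).2 _ (fun j l => ?_) (fun j l => ?_)
    · rw [h1 0 r _ (hU.good j l) false, ivf, zero_mul]
    · refine (h2 0 r _ (hU.good j l) le_rfl zero_le_one false).trans ?_
      rw [ivf]
      exact r3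
  have heta : 0 ≤ eta v N p := by
    unfold eta
    have := th_nonneg v
    positivity
  have hcube : 0 ≤ ((1 + eta v N p) ^ 2 - 1) ^ 3 := by
    have : 0 ≤ (1 + eta v N p) ^ 2 - 1 := by nlinarith
    positivity
  have hd : 0 ≤ (1 + dlt v N p ^ 2) ^ 3 - 1 := by
    have h0 := sq_nonneg (dlt v N p)
    have : (1 : ℝ) ≤ (1 + dlt v N p ^ 2) ^ 3 := one_le_pow₀ (by linarith)
    linarith
  refine ⟨f, hf, ?_, ?_⟩
  · rw [hL.1 n k, ← hp]
    have e : (fun (σ : Fin n → Bool) (Y : Input n) =>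
        (ev f Y - if r ∈ Finset.univ.filter (fun v => σ v = true) then (1 : ℝ) else 0) ^ 2) =
        fun σ Y => (qf M r U Y - if σ r = true then (1 : ℝ) else 0) ^ 2 := by
      funext σ Y
      rw [hfe]
      simp
    rw [e, hC n p r]
    have e1 : EXs p r true (fun (σ : Fin n → Bool) (Y : Input n) =>
        (qf M r U Y - if σ r = true then (1 : ℝ) else 0) ^ 2) =
        EXs p r true (fun _ Y => (qf M r U Y - 1) ^ 2) := by
      unfold EXs
      simp
    have e0 : EXs p r false (fun (σ : Fin n → Bool) (Y : Input n) =>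
        (qf M r U Y - if σ r = true then (1 : ℝ) else 0) ^ 2) =
        EXs p r false (fun _ Y => qf M r U Y ^ 2) := by
      unfold EXs
      simp
    rw [e1, e0]
    unfold kap
    have a1 := mul_le_mul_of_nonneg_left q1 hp0.le
    have a2 : (1 - p) * EXs p r false (fun _ Y => qf M r U Y ^ 2) ≤
        1 * ((1 + eta v N p) ^ 2 - 1) ^ 3 := by
      refine (mul_le_mul_of_nonneg_left q0 (by linarith)).trans ?_
      exact mul_le_mul_of_nonneg_right (by linarith) hcube
    linarith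
  · have e : (fun Y : Input n => ev f Y ^ 2) = fun Y => qf M r U Y ^ 2 := by
      funext Y
      rw [hfe]
    rw [e, hL.2 n, hC n 0 r]
    unfold kap
    have := mul_nonneg hp0.le hd
    linarith

end Pool.Agent.W2helper57.LD
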