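import Pool.Agent.N602.PCMoment

/-!
# Project LD: planted clique of size `eps * sqrt n`, polynomials of degree `O(log n)`

Statements of the pieces (Props `S_...`), with proofs in words. Namespace of the definitions:
`Pool.Agent.W2helper57.LD`. The expectations `EQ`, `EP` are those of `Pool.Agent.N602.PCDefs`.

The statistic of a block: classes `u 0` (centres) and `u 1, ..., u v` (leaves) of `N` vertices
each, all different and different from the root `r`. A pattern is `g : Fin (v+1) → Fin N`. Its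
factor is: the sign of the pair root-centre, the signs of the pairs centre-leaf, and
`1 + sign` for each pair of leaves. `H` is the sum over all patterns.
-/

set_option autoImplicit false

open Filter Asymptotics Pool.Agent.N602.PC

namespace Pool.Agent.W2helper57.LD

/-- expectation for independent bits with weights `w` -/
noncomputable def Ew {ι : Type} [Fintype ι] [DecidableEq ι] (w : ι → Bool → ℝ)
    (G : (ι → Bool) → ℝ) : ℝ :=
  ∑ ω : ι → Bool, (∏ i, w i (ω i)) * G ω

/-- weight of a bit which is `true` with probability `p` -/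
noncomputable def wb (p : ℝ) (b : Bool) : ℝ := if b = true then p else 1 - p

/-- each vertex is in the planted set independently with probability `p` -/
noncomputable def EV {n : ℕ} (p : ℝ) (G : (Fin n → Bool) → ℝ) : ℝ := Ew (fun _ => wb p) G

/-- the graph `Z` together with the complete graph on `{v | σ v = true}` -/
def pl {n : ℕ} (σ : Fin n → Bool) (Z : Input n) : Input n :=
  fun e => Z e || (σ e.1.1 && σ e.1.2)

/-- joint expectation of the planted set and the graph -/
noncomputable def EX {n : ℕ} (p : ℝ) (F : (Fin n → Bool) → Input n → ℝ) : ℝ :=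
  EV p fun σ => EQ fun Z => F σ (pl σ Z)

/-- the same, conditioned on `σ r = s` -/
noncomputable def EXs {n : ℕ} (p : ℝ) (r : Fin n) (s : Bool) (F : (Fin n → Bool) → Input n → ℝ) :
    ℝ :=
  EV p fun σ => EQ fun Z => F (Function.update σ r s) (pl (Function.update σ r s) Z)

/-- the sign of the pair `a, b` in the graph `Y`: `1` for an edge, `-1` for a non-edge -/
noncomputable def sg {n : ℕ} (Y : Input n) (a b : Fin n) : ℝ :=
  if h : a < b then (if Y ⟨(a, b), h⟩ = true then 1 else -1)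
  else if h : b < a then (if Y ⟨(b, a), h⟩ = true then 1 else -1) else 1

/-- the pairs of leaves -/
def prs (v : ℕ) : Finset (Fin v × Fin v) := Finset.univ.filter fun x => x.1 < x.2

/-- the factor of the pattern `g` -/
noncomputable def Fg {n v N : ℕ} (r : Fin n) (u : Fin (v + 1) → Fin N → Fin n)
    (g : Fin (v + 1) → Fin N) (Y : Input n) : ℝ :=
  sg Y r (u 0 (g 0)) * (∏ j : Fin v, sg Y (u 0 (g 0)) (u j.succ (g j.succ))) *
    ∏ x ∈ prs v, (1 + sg Y (u x.1.succ (g x.1.succ)) (u x.2.succ (g x.2.succ)))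

/-- the statistic of a block -/
noncomputable def H {n v N : ℕ} (r : Fin n) (u : Fin (v + 1) → Fin N → Fin n) (Y : Input n) : ℝ :=
  ∑ g : Fin (v + 1) → Fin N, Fg r u g Y

/-- all vertices of the block are different, and different from the root -/
structure Good {n v N : ℕ} (r : Fin n) (u : Fin (v + 1) → Fin N → Fin n) : Prop where
  inj : ∀ i m i' m', u i m = u i' m' → i = i' ∧ m = m'
  ne : ∀ i m, u i m ≠ r

/-- six disjoint blocks -/
structure Good6 {n v N : ℕ} (r : Fin n) (U : Fin 3 → Fin 2 → Fin (v + 1) → Fin N → Fin n) :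
    Prop where
  inj : ∀ j l i m j' l' i' m', U j l i m = U j' l' i' m' → j = j' ∧ l = l' ∧ i = i' ∧ m = m'
  ne : ∀ j l i m, U j l i m ≠ r

theorem Good6.good {n v N : ℕ} {r : Fin n} {U : Fin 3 → Fin 2 → Fin (v + 1) → Fin N → Fin n}
    (h : Good6 r U) (j : Fin 3) (l : Fin 2) : Good r (U j l) :=
  ⟨fun i m i' m' e => (h.inj j l i m j l i' m' e).2.2, h.ne j l⟩

/-- the estimator: `1 - (1 - h)(1 - h')` makes the value near `1` more precise, and the product of
three of these makes the value near `0` more precise -/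
noncomputable def qf {n v N : ℕ} (M : ℝ) (r : Fin n)
    (U : Fin 3 → Fin 2 → Fin (v + 1) → Fin N → Fin n) (Y : Input n) : ℝ :=
  ∏ j : Fin 3, (1 - ∏ l : Fin 2, (1 - H r (U j l) Y / M))

/-- `2 ^ (-(v-1)/2)` -/
noncomputable def th (v : ℕ) : ℝ := ((Real.sqrt 2)⁻¹) ^ (v - 1)

/-- `0` or `1` -/
noncomputable def iv (b : Bool) : ℝ := if b = true then 1 else 0

/-! ### Independence -/

/-- PIECE IND (general independence; about 100 lines). Functions of disjoint sets of independent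
bits are independent. Proof: induction on `B`; for two functions `F`, `G` where `F` depends only on
the coordinates of the set `A` and `G` only on the other ones, split `ι → Bool` into the product
of `{i // i ∈ A} → Bool` and `{i // i ∉ A} → Bool` (`Equiv.piEquivPiSubtypeProd`), the sum of the
products is the product of the sums, and the sum of all weights is `1` (`Fintype.prod_sum` /
`Finset.prod_univ_sum`). -/
def S_IND : Prop :=
  ∀ {ι κ : Type} [Fintype ι] [DecidableEq ι] [DecidableEq κ] (w : ι → Bool → ℝ),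
    (∀ i, w i true + w i false = 1) → ∀ (B : Finset κ) (I : κ → Finset ι),
    (∀ x ∈ B, ∀ y ∈ B, x ≠ y → Disjoint (I x) (I y)) → ∀ G : κ → (ι → Bool) → ℝ,
    (∀ x ∈ B, ∀ ω ω' : ι → Bool, (∀ i ∈ I x, ω i = ω' i) → G x ω = G x ω') →
    Ew w (fun ω => ∏ x ∈ B, G x ω) = ∏ x ∈ B, Ew w (G x)

/-- PIECE EQEW (30 lines). `EQ` is `Ew` with all weights `1/2`, and `EV p` has total weight 1. -/
def S_EQEW : Prop :=
  (∀ (n : ℕ) (F : Input n → ℝ), EQ F = Ew (fun _ _ => 1 / 2) F) ∧
  (∀ (n : ℕ) (p c : ℝ), EV (n := n) p (fun _ => c) = c)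

/-- PIECE COND (50 lines). Conditioning on the bit of `r`. Proof: split the sum over `σ` by the value
`σ r`; both sides are sums over the other bits (for instance `Fintype.sum_equiv` with
`Equiv.funSplitAt` / `Equiv.piSplitAt`, or pair `σ` with its flip at `r`). -/
def S_COND : Prop :=
  ∀ (n : ℕ) (p : ℝ) (r : Fin n) (F : (Fin n → Bool) → Input n → ℝ),
    EX p F = p * EXs p r true F + (1 - p) * EXs p r false F

/-- PIECE LINK (80 lines). The expectations of `N602` in this language. For the second claim all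
weights with some `σ v = true` are `0`. -/
def S_LINK : Prop :=
  (∀ (n : ℕ) (k : ℝ) (F : Finset (Fin n) → Input n → ℝ),
    EP k F = EX (k / n) fun σ Y => F (Finset.univ.filter fun v => σ v = true) Y) ∧
  (∀ (n : ℕ) (F : Input n → ℝ), EQ F = EX 0 fun _ Y => F Y)

/-- PIECE INDJ (150 lines; from IND and EQEW). The three groups of blocks are independent, and so are
the two blocks of a group. Proof: `H r (U j l) (pl (update σ r s) Z)` depends, for fixed `σ`, only on
the bits of `Z` for pairs inside `{r} ∪ range (U j l)` which are not `{r}` alone, these sets are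
disjoint for different `(j, l)`; its expectation over `Z` depends only on the bits of `σ` in the
range of `U j l`. Apply IND first for `EQ` with fixed `σ`, then for `EV`. -/
def S_INDJ : Prop :=
  ∀ {n v N : ℕ} (p : ℝ) (r : Fin n) (U : Fin 3 → Fin 2 → Fin (v + 1) → Fin N → Fin n),
    Good6 r U → ∀ s : Bool,
    (∀ Φ : Fin 3 → (Fin 2 → ℝ) → ℝ,
      EXs p r s (fun _ Y => ∏ j, Φ j (fun l => H r (U j l) Y)) =
        ∏ j, EXs p r s (fun _ Y => Φ j (fun l => H r (U j l) Y))) ∧
    (∀ (j : Fin 3) (G : Fin 2 → ℝ → ℝ),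
      EXs p r s (fun _ Y => ∏ l, G l (H r (U j l) Y)) =
        ∏ l, EXs p r s (fun _ Y => G l (H r (U j l) Y)))

/-! ### First and second moment of a block -/

/-- PIECE EDGE1 (100 lines; from IND, EQEW). For fixed `σ` the expectation of a pattern over the
graph: all pairs of the pattern are different, so the expectation is the product; a pair inside the
planted set has sign `1`, any other pair has a uniformly random sign. -/
def S_EDGE1 : Prop :=
  ∀ {n v N : ℕ} (r : Fin n) (u : Fin (v + 1) → Fin N → Fin n), Good r u →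
    ∀ (σ : Fin n → Bool) (g : Fin (v + 1) → Fin N),
    EQ (fun Z => Fg r u g (pl σ Z)) =
      iv (σ r) * iv (σ (u 0 (g 0))) *
        (∏ j : Fin v, iv (σ (u 0 (g 0))) * iv (σ (u j.succ (g j.succ)))) *
        ∏ x ∈ prs v, (1 + iv (σ (u x.1.succ (g x.1.succ))) * iv (σ (u x.2.succ (g x.2.succ))))

/-- factor of the pair root-centre in the second moment -/
noncomputable def Rf {n v N : ℕ} (r : Fin n) (u : Fin (v + 1) → Fin N → Fin n) (σ : Fin n → Bool)
    (g g' : Fin (v + 1) → Fin N) : ℝ :=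
  if g 0 = g' 0 then 1 else iv (σ r) * iv (σ (u 0 (g 0))) * iv (σ (u 0 (g' 0)))

/-- factor of the pairs centre-leaf in the second moment -/
noncomputable def Lf {n v N : ℕ} (u : Fin (v + 1) → Fin N → Fin n) (σ : Fin n → Bool)
    (g g' : Fin (v + 1) → Fin N) (j : Fin v) : ℝ :=
  if g 0 = g' 0 ∧ g j.succ = g' j.succ then 1 else
    (iv (σ (u 0 (g 0))) * iv (σ (u j.succ (g j.succ)))) *
      (iv (σ (u 0 (g' 0))) * iv (σ (u j.succ (g' j.succ))))

/-- factor of the pairs leaf-leaf in the second moment -/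
noncomputable def Pf {n v N : ℕ} (u : Fin (v + 1) → Fin N → Fin n) (σ : Fin n → Bool)
    (g g' : Fin (v + 1) → Fin N) (x : Fin v × Fin v) : ℝ :=
  if g x.1.succ = g' x.1.succ ∧ g x.2.succ = g' x.2.succ then
    2 + 2 * (iv (σ (u x.1.succ (g x.1.succ))) * iv (σ (u x.2.succ (g x.2.succ)))) else
    (1 + iv (σ (u x.1.succ (g x.1.succ))) * iv (σ (u x.2.succ (g x.2.succ)))) *
      (1 + iv (σ (u x.1.succ (g' x.1.succ))) * iv (σ (u x.2.succ (g' x.2.succ))))

/-- PIECE EDGE2 (180 lines; from IND, EQEW). The second moment for fixed `σ`. Write the product of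
the two factors as a product over the slots (root-centre; centre-leaf `j`; pair of leaves `x`) of
products of two factors. Different slots use different pairs of vertices. In one slot the two pairs
of vertices are equal or different; if equal, `sign² = 1`, and `(1 + sign)²` has expectation `4`
inside the planted set, otherwise `2`. -/
def S_EDGE2 : Prop :=
  ∀ {n v N : ℕ} (r : Fin n) (u : Fin (v + 1) → Fin N → Fin n), Good r u →
    ∀ (σ : Fin n → Bool) (g g' : Fin (v + 1) → Fin N),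
    EQ (fun Z => Fg r u g (pl σ Z) * Fg r u g' (pl σ Z)) =
      Rf r u σ g g' * (∏ j : Fin v, Lf u σ g g' j) * ∏ x ∈ prs v, Pf u σ g g' x

/-- the bound for a leaf, when the centres agree -/
noncomputable def lf {n v N : ℕ} (u : Fin (v + 1) → Fin N → Fin n) (σ : Fin n → Bool)
    (g g' : Fin (v + 1) → Fin N) (j : Fin v) : ℝ :=
  if g j.succ = g' j.succ then (iv (σ (u j.succ (g j.succ))) + (1 - iv (σ (u j.succ (g j.succ)))) * th v)
  else iv (σ (u 0 (g 0))) * (iv (σ (u j.succ (g j.succ))) * iv (σ (u j.succ (g' j.succ))))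

/-- PIECE BD (100 lines). Pointwise bound. If the centres differ, all leaves must be in the planted
set (otherwise the left side is `0`) and all `Pf` are `4`. If the centres agree: let
`ψ i = 1/sqrt 2` if `g, g'` agree at the leaf `i` and this leaf is not planted, and `ψ i = 1`
otherwise; unless some `Lf` is `0`, `Pf (i, j) ≤ 4 ψ i ψ j` for all pairs (if exactly one or both of
`ψ i, ψ j` are `1/sqrt 2`, then `Pf ≤ 2`). The product of `4 ψ i ψ j` over all pairs is
`4 ^ (v choose 2) * ∏ ψ i ^ (v-1)`. -/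
def S_BD : Prop :=
  ∀ {n v N : ℕ} (r : Fin n) (u : Fin (v + 1) → Fin N → Fin n)
    (σ : Fin n → Bool) (g g' : Fin (v + 1) → Fin N),
    Rf r u σ g g' * (∏ j : Fin v, Lf u σ g g' j) * (∏ x ∈ prs v, Pf u σ g g' x) ≤
      4 ^ (v.choose 2) * (if g 0 = g' 0 then ∏ j : Fin v, lf u σ g g' j else
        iv (σ r) * (iv (σ (u 0 (g 0))) * iv (σ (u 0 (g' 0)))) *
          ∏ j : Fin v, (iv (σ (u j.succ (g j.succ))) * iv (σ (u j.succ (g' j.succ)))))

/-- PIECE EVP (130 lines; from IND). Expectation over `σ` of the bound, with `σ r = s`; for equal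
centres condition on the bit of the centre (or write the product as the sum over its two values). -/
def S_EVP : Prop :=
  ∀ {n v N : ℕ} (p : ℝ) (r : Fin n) (u : Fin (v + 1) → Fin N → Fin n), Good r u →
    ∀ (s : Bool) (g g' : Fin (v + 1) → Fin N),
    EV p (fun σ => if g 0 = g' 0 then ∏ j : Fin v, lf u (Function.update σ r s) g g' j else
        iv (Function.update σ r s r) * (iv (Function.update σ r s (u 0 (g 0))) *
          iv (Function.update σ r s (u 0 (g' 0)))) *
          ∏ j : Fin v, (iv (Function.update σ r s (u j.succ (g j.succ))) *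
            iv (Function.update σ r s (u j.succ (g' j.succ))))) =
      if g 0 = g' 0 then
        p * (∏ j : Fin v, if g j.succ = g' j.succ then p + (1 - p) * th v else p ^ 2) +
        (1 - p) * (∏ j : Fin v, if g j.succ = g' j.succ then p + (1 - p) * th v else 0)
      else iv s * p ^ 2 * ∏ j : Fin v, if g j.succ = g' j.succ then p else p ^ 2

/-- PIECE SUMG (80 lines, no probability). The sum over the patterns. Use
`Fin.consEquiv`/`Fin.insertNthEquiv` to split off `g 0`, `Finset.prod_univ_sum`, and that among the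
`N²` pairs `(m, m')` there are `N` equal ones. -/
def S_SUMG : Prop :=
  ∀ (v N : ℕ) (p t : ℝ) (c : ℝ), 0 ≤ p → p ≤ 1 → 0 ≤ t → 0 ≤ c →
    ∑ g : Fin (v + 1) → Fin N, ∑ g' : Fin (v + 1) → Fin N,
      (if g 0 = g' 0 then
        p * (∏ j : Fin v, if g j.succ = g' j.succ then p + (1 - p) * t else p ^ 2) +
        (1 - p) * (∏ j : Fin v, if g j.succ = g' j.succ then p + (1 - p) * t else 0)
      else c * p ^ 2 * ∏ j : Fin v, if g j.succ = g' j.succ then p else p ^ 2) ≤
    c * (N * p) ^ 2 * ((N * p) ^ 2 + N * p) ^ v + N * p * ((N * p) ^ 2 + N * p + N * t) ^ v +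
      N * (N * p + N * t) ^ v

/-- (proved by helper57 from EDGE1, IND) first moment -/
def S_MOM1 : Prop :=
  ∀ {n v N : ℕ} (p : ℝ) (r : Fin n) (u : Fin (v + 1) → Fin N → Fin n), Good r u → ∀ s : Bool,
    EXs p r s (fun _ Y => H r u Y) = iv s * ((N * p) ^ (v + 1) * 2 ^ (v.choose 2))

/-- (assembly by helper57 from EDGE2, BD, EVP, SUMG) second moment -/
def S_MOM2 : Prop :=
  ∀ {n v N : ℕ} (p : ℝ) (r : Fin n) (u : Fin (v + 1) → Fin N → Fin n), Good r u → 0 ≤ p → p ≤ 1 →
    ∀ s : Bool, EXs p r s (fun _ Y => H r u Y ^ 2) ≤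
      4 ^ (v.choose 2) * (iv s * (N * p) ^ 2 * ((N * p) ^ 2 + N * p) ^ v +
        N * p * ((N * p) ^ 2 + N * p + N * th v) ^ v + N * (N * p + N * th v) ^ v)

/-! ### The estimator -/

/-- PIECE AMP (100 lines; from INDJ). Let `h = H/M`. If `E h = 1` and `E h² ≤ 1 + δ` for all six
blocks then `E (1-h) = 0`, `E (1-h)² ≤ δ`, so `a_j = 1 - (1-h)(1-h')` has `E a_j = 1` and
`E a_j² ≤ 1 + δ²`, and `E (q-1)² = E q² - 1 ≤ (1+δ²)³ - 1`. If `E h = 0`, `E h² ≤ η` then
`E (1-h) = 1`, `E (1-h)² ≤ 1 + η`, `E a_j² ≤ (1+η)² - 1` and `E q² ≤ ((1+η)²-1)³`. -/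
def S_AMP : Prop :=
  ∀ {n v N : ℕ} (p M : ℝ) (r : Fin n) (U : Fin 3 → Fin 2 → Fin (v + 1) → Fin N → Fin n),
    Good6 r U → 0 ≤ p → p ≤ 1 → 0 < M → ∀ s : Bool,
    (∀ δ : ℝ, (∀ j l, EXs p r s (fun _ Y => H r (U j l) Y) = M) →
      (∀ j l, EXs p r s (fun _ Y => H r (U j l) Y ^ 2) ≤ (1 + δ) * M ^ 2) →
      EXs p r s (fun _ Y => (qf M r U Y - 1) ^ 2) ≤ (1 + δ ^ 2) ^ 3 - 1) ∧
    (∀ η : ℝ, (∀ j l, EXs p r s (fun _ Y => H r (U j l) Y) = 0) →
      (∀ j l, EXs p r s (fun _ Y => H r (U j l) Y ^ 2) ≤ η * M ^ 2) →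
      EXs p r s (fun _ Y => qf M r U Y ^ 2) ≤ ((1 + η) ^ 2 - 1) ^ 3)

/-- the error terms -/
noncomputable def eta (v N : ℕ) (p : ℝ) : ℝ :=
  1 / (N * p) * (1 + 1 / (N * p) + th v / (N * p ^ 2)) ^ v +
    1 / (N * p ^ 2) * (1 / (N * p) + th v / (N * p ^ 2)) ^ v

noncomputable def dlt (v N : ℕ) (p : ℝ) : ℝ := ((1 + 1 / (N * p)) ^ v - 1) + eta v N p

noncomputable def kap (v N : ℕ) (p : ℝ) : ℝ :=
  p * ((1 + dlt v N p ^ 2) ^ 3 - 1) + ((1 + eta v N p) ^ 2 - 1) ^ 3

/-- PIECE RATIO (70 lines, algebra). The bounds of MOM2 divided by the square of the mean. -/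
def S_RATIO : Prop :=
  ∀ (v N : ℕ) (p : ℝ), 0 < p → p ≤ 1 → 0 < N →
    (4 ^ (v.choose 2) * (1 * (N * p) ^ 2 * ((N * p) ^ 2 + N * p) ^ v +
        N * p * ((N * p) ^ 2 + N * p + N * th v) ^ v + N * (N * p + N * th v) ^ v) ≤
      (1 + dlt v N p) * ((N * p) ^ (v + 1) * 2 ^ (v.choose 2)) ^ 2) ∧
    (4 ^ (v.choose 2) * (0 * (N * p) ^ 2 * ((N * p) ^ 2 + N * p) ^ v +
        N * p * ((N * p) ^ 2 + N * p + N * th v) ^ v + N * (N * p + N * th v) ^ v) ≤
      eta v N p * ((N * p) ^ (v + 1) * 2 ^ (v.choose 2)) ^ 2) ∧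
    (4 ^ (v.choose 2) * (0 * (N * (0:ℝ)) ^ 2 * ((N * (0:ℝ)) ^ 2 + N * (0:ℝ)) ^ v +
        N * (0:ℝ) * ((N * (0:ℝ)) ^ 2 + N * (0:ℝ) + N * th v) ^ v +
        N * (N * (0:ℝ) + N * th v) ^ v) ≤
      eta v N p * ((N * p) ^ (v + 1) * 2 ^ (v.choose 2)) ^ 2)

/-- PIECE POLY (120 lines). The estimator is a polynomial of degree at most `6 (v+1)²`. The sign of
a pair is `2 X_e - 1`; the factor of a pattern has degree at most `1 + v + v(v-1)/2 ≤ (v+1)²`. -/
def S_POLY : Prop :=
  ∀ {n v N : ℕ} (M : ℝ) (r : Fin n) (U : Fin 3 → Fin 2 → Fin (v + 1) → Fin N → Fin n),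
    Good6 r U → ∃ f : MvPolynomial (Edge n) ℝ, f.totalDegree ≤ 6 * (v + 1) ^ 2 ∧
      ∀ Y : Input n, ev f Y = qf M r U Y

/-- PIECE BLK (50 lines). Enough vertices give six disjoint blocks which avoid `r`: an injection
`Fin 3 × Fin 2 × Fin (v+1) × Fin N → {x // x ≠ r}` exists by counting. -/
def S_BLK : Prop :=
  ∀ (n v N : ℕ), 6 * ((v + 1) * N) + 1 ≤ n → ∀ r : Fin n,
    ∃ U : Fin 3 → Fin 2 → Fin (v + 1) → Fin N → Fin n, Good6 r U

/-- (assembly by helper57) The estimator for one vertex. -/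
def S_EST : Prop :=
  ∀ (n v N : ℕ) (k : ℝ), 6 * ((v + 1) * N) + 1 ≤ n → 0 < N → 0 < k → k ≤ n → ∀ r : Fin n,
    ∃ f : MvPolynomial (Edge n) ℝ, f.totalDegree ≤ 6 * (v + 1) ^ 2 ∧
      EP k (fun S Y => (ev f Y - if r ∈ S then 1 else 0) ^ 2) ≤ kap v N (k / n) ∧
      EQ (fun Y => ev f Y ^ 2) ≤ kap v N (k / n)

/-- PIECE SEP (150 lines; uses lemmas of `N602.PCMoment` on `EQ`, `EP`). From the estimators of the
single vertices to both conditions. Let `q r` be the estimator of `r` and `F = ∑ r, q r`. By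
Cauchy-Schwarz `E_P (F - |S|)² ≤ n² κ`, and `|S|` has mean `k` and variance `≤ k`, so
`Var_P F ≤ E_P (F - k)² ≤ 2 n² κ + 2 k`, `|E_P F - k| ≤ sqrt (n² κ)`; and `E_Q F² ≤ n² κ`. The
infimum in `MMSE` is over a set of nonnegative numbers. Here for one `n`. -/
def S_SEP : Prop :=
  ∀ (n D : ℕ) (k κ : ℝ), 1 ≤ n → 0 < k → k ≤ n → 0 ≤ κ →
    (∀ r : Fin n, ∃ f : MvPolynomial (Edge n) ℝ, f.totalDegree ≤ D ∧
      EP k (fun S Y => (ev f Y - if r ∈ S then 1 else 0) ^ 2) ≤ κ ∧
      EQ (fun Y => ev f Y ^ 2) ≤ κ) →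
    (0 ≤ MMSE n k D ∧ MMSE n k D ≤ κ) ∧
    ∃ F : MvPolynomial (Edge n) ℝ, F.totalDegree ≤ D ∧
      varP k F ≤ 2 * n ^ 2 * κ + 2 * k ∧ varQ F ≤ n ^ 2 * κ ∧
      k - 2 * (n * Real.sqrt κ) ≤ |meanP k F - meanQ F|

/-- number of leaves -/
noncomputable def vN (a : ℕ) (n : ℕ) : ℕ := ⌈(a : ℝ) * Real.sqrt (Real.log n)⌉₊ + 1

/-- size of the classes -/
noncomputable def NN (a : ℕ) (n : ℕ) : ℕ := (n - 1) / (6 * (vN a n + 1))

/-- PIECE ASYM (200 lines, real analysis). Let `L = sqrt (log n)`, `v = vN a n`, `N = NN a n`,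
`p = k/n`; `n / (12 (v+1)) ≤ N` for large `n`. `X = 1/(N p) ≤ 12 (v+1) exp (B L) / sqrt n`,
`G = 1/(N p²) ≤ 12 (v+1) exp (2 B L)`, and `b = th v * G`, where
`th v = exp (-(v-1) log 2 / 2) ≤ exp (-0.34 a L)`. Choose `a` with `0.34 a ≥ 2 B + 3`, `a ≥ 3`; then
`b ≤ exp (-2 L)` and `X + b ≤ exp (-L)` for large `n`, so `(X + b)^v ≤ exp (-L v) ≤ exp (-a L²) =
n^(-a)`, `G (X+b)^v ≤ n^(-2)`. As `v (X + b) → 0`: `(1 + X + b)^v ≤ 3` and
`(1+X)^v - 1 ≤ 2 v X`. So `eta ≤ 3 X + n^(-2)` and `dlt ≤ (2 v + 3) X + n^(-2)`. Since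
`kap ≤ 7 p dlt² + 27 eta³` for `dlt, eta ≤ 1`, and `p X² = 1/(N² p) ≤ 144 (v+1)²/(n k)`,
everything follows. -/
def S_ASYM : Prop :=
  ∀ B : ℝ, ∃ a : ℕ, ∀ k : ℕ → ℝ,
    (∀ᶠ n : ℕ in atTop, Real.sqrt n * Real.exp (-B * Real.sqrt (Real.log n)) ≤ k n ∧ k n ≤ n) →
    Tendsto (fun n : ℕ => n * kap (vN a n) (NN a n) (k n / n)) atTop (nhds 0) ∧
    Tendsto (fun n : ℕ => (n / k n) ^ 2 * kap (vN a n) (NN a n) (k n / n)) atTop (nhds 0) ∧
    Tendsto k atTop atTop

end Pool.Agent.W2helper57.LD
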